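import Pool.Agent.Y573.GL.AllG

set_option autoImplicit false

/-! Glauber dynamics for proper colourings with `q ≥ Δ + 2` colours on almost all graphs of
maximum degree at most `Δ`. -/

namespace Pool.Agent.Results.MP_26a019_lc.AlmostAllGraphs

open Pool.Agent.H983R2.GC

/-- For every `Δ`, every `q ≥ Δ + 2` and every exponent `K` there are `A, B > 0` such that for
every `n ≥ 2` at most the proportion `B / n ^ K` of the graphs on `n` labelled vertices with
maximum degree at most `Δ` fails to satisfy `T_mix ≤ A n log n` for the Glauber dynamics for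
proper `q`-colourings. -/
theorem result (Δ q K : ℕ) (hq : Δ + 2 ≤ q) :
    ∃ A B : ℝ, 0 < A ∧ 0 < B ∧ ∀ n : ℕ, 2 ≤ n →
      (n : ℝ) ^ K *
        (({G : SimpleGraph (Fin n) | (∀ v, (G.neighborSet v).ncard ≤ Δ) ∧
        ¬ ((∀ σ : PCol G q, tv ((P G q ^ tmix G q) σ) (unif G q) ≤ 1 / 4) ∧
          (tmix G q : ℝ) ≤ A * ((n : ℝ) * Real.log n))}.ncard : ℕ) : ℝ) ≤
      B * (({G : SimpleGraph (Fin n) | ∀ v, (G.neighborSet v).ncard ≤ Δ}.ncard : ℕ) : ℝ) := by
  obtain ⟨A, B, hA, hB, h⟩ := Pool.Agent.Y573.GL.all_graphs Δ q K hq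
  refine ⟨A, B, hA, hB, fun n hn => ?_⟩
  have h1 := (h n hn).2
  unfold Pool.Agent.W341.RR.Mixes at h1
  rw [Fintype.card_fin] at h1
  exact h1

end Pool.Agent.Results.MP_26a019_lc.AlmostAllGraphs
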