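import Pool.Agent.Y992.SC.All2
import Pool.Agent.Y992.SC.Fin4
import Pool.Agent.Y528.SC.POI

set_option autoImplicit false

/-! Rapid mixing of Glauber dynamics for proper colourings with `q ≥ (1 + ε) Δ` colours on all
graphs of large maximum degree `Δ` with few four-cycles through every vertex: the exponent of the
polynomial depends only on `ε`. -/

namespace Pool.Agent.Results.MP_26a019_lc.UniformPolynomial

open Pool.Agent.H983R2.GC Pool.Agent.Y992.SC

/-- For every `ε > 0` there are `Δ₀`, `η > 0` and an exponent `k` such that for all `Δ ≥ Δ₀` and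
all `q ≥ (1 + ε) Δ` the Glauber dynamics for proper `q`-colourings has mixing time at most
`n ^ k * log q` on every graph with `n ≥ 2` vertices and maximum degree at most `Δ` in which every
vertex lies in at most `η Δ³ / 2` four-cycles; `Δ` and `q` may depend on `n`. -/
theorem result (ε : ℝ) (hε : 0 < ε) :
    ∃ (Δ₀ : ℕ) (η : ℝ) (k : ℕ), 0 < η ∧ ∀ Δ q : ℕ, Δ₀ ≤ Δ →
      (1 + ε) * (Δ : ℝ) ≤ (q : ℝ) →
      ∀ (V : Type) [Fintype V] [DecidableEq V] (G : SimpleGraph V),
      (∀ v, (G.neighborSet v).ncard ≤ Δ) →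
      (∀ u, ((fcv G u).ncard : ℝ) ≤ η * (Δ : ℝ) ^ 3) →
      2 ≤ Fintype.card V →
      (∀ σ : PCol G q, tv ((P G q ^ tmix G q) σ) (unif G q) ≤ 1 / 4) ∧
      (tmix G q : ℝ) ≤ (Fintype.card V : ℝ) ^ k * Real.log q :=
  finalU4 Pool.Agent.Y31.SC.t_NE s_IND2
    (Pool.Agent.Y528.SC.POI.t_POI s_BF s_BLK s_SPR) (Pool.Agent.Y569.SC.t_TVM s_BF) ε hε

end Pool.Agent.Results.MP_26a019_lc.UniformPolynomial
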